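import Pool.Agent.X26.LF.Stm

set_option autoImplicit false

namespace Pool.Agent.X308.LF

open Finset Pool.Agent.X26.LF

section

variable {m p N : ℕ} [hp : Fact p.Prime] (u : Fin m → ZMod p)

open Classical in
/-- coefficients -/
noncomputable def cc (ι : Fin m ↪ Fin N) (i : Fin N) : ZMod p :=
  ∑ j, if ι j = i then u j else 0

theorem cc_sum (ι : Fin m ↪ Fin N) (x : Fin N → ZMod p) :
    ∑ i, cc u ι i * x i = ∑ j, u j * x (ι j) := by
  classical
  unfold cc
  simp only [Finset.sum_mul]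
  rw [Finset.sum_comm]
  refine Finset.sum_congr rfl fun j _ => ?_
  rw [Finset.sum_eq_single (ι j)]
  · simp
  · intro b _ hb
    rw [if_neg (fun h => hb h.symm), zero_mul]
  · intro h
    exact absurd (Finset.mem_univ _) h

theorem cc_apply (ι : Fin m ↪ Fin N) (j : Fin m) : cc u ι (ι j) = u j := by
  classical
  unfold cc
  rw [Finset.sum_eq_single j]
  · simp
  · intro b _ hb
    rw [if_neg (fun h => hb (ι.injective h))]
  · intro h
    exact absurd (Finset.mem_univ _) h

theorem cc_zero (ι : Fin m ↪ Fin N) (i : Fin N) (h : ∀ j, ι j ≠ i) : cc u ι i = 0 := by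
  classical
  unfold cc
  exact Finset.sum_eq_zero fun j _ => if_neg (h j)

theorem cc_ne (hm : 1 ≤ m) (hu : ∀ i, u i ≠ 0) (ι : Fin m ↪ Fin N) : cc u ι ≠ 0 := by
  intro h
  have h1 := cc_apply u ι ⟨0, hm⟩
  rw [h] at h1
  exact hu _ h1.symm

theorem dep_range (hu : ∀ i, u i ≠ 0) (ι ι' : Fin m ↪ Fin N)
    (h : ∃ l, cc u ι' = fun i => l * cc u ι i) : ∀ j, ∃ j', ι j' = ι' j := by
  obtain ⟨l, hl⟩ := h
  intro j
  by_contra hc
  push Not at hc
  have h1 := congrFun hl (ι' j)
  rw [cc_apply, cc_zero u ι _ hc, mul_zero] at h1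
  exact hu _ h1

open Classical in
theorem card_dep (ι : Fin m ↪ Fin N) :
    (univ.filter fun ι' : Fin m ↪ Fin N => ∀ j, ∃ j', ι j' = ι' j).card ≤ m.factorial := by
  have h1 : (univ.filter fun ι' : Fin m ↪ Fin N => ∀ j, ∃ j', ι j' = ι' j) ⊆
      (univ : Finset (Fin m ↪ Fin m)).image fun σ => σ.trans ι := by
    intro ι' h
    rw [Finset.mem_filter] at h
    choose g hg using h.2
    rw [Finset.mem_image]
    have hinj : Function.Injective g := by
      intro a b hab
      apply ι'.injective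
      rw [← hg a, ← hg b, hab]
    refine ⟨⟨g, hinj⟩, Finset.mem_univ _, ?_⟩
    ext j
    change (ι (g j) : ℕ) = _
    rw [hg j]
  refine (Finset.card_le_card h1).trans (Finset.card_image_le.trans ?_)
  rw [Finset.card_univ, Fintype.card_embedding_eq]
  simp [Nat.descFactorial_self]

end

open Classical in
theorem t_SM : S_CNT → S_SM := by
  intro hC m p N hp u s hm hu hT
  set T : ℕ := N.descFactorial m with hTdef
  have hcardE : Fintype.card (Fin m ↪ Fin N) = T := by
    rw [Fintype.card_embedding_eq, Fintype.card_fin, Fintype.card_fin]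
  let X : (Fin N → ZMod p) → ℝ := fun x =>
    ∑ ι : Fin m ↪ Fin N, if ∑ j, u j * x (ι j) = s then (1 : ℝ) else 0
  have hp0 : (0 : ℝ) < p := by exact_mod_cast hp.out.pos
  have hone : ∀ ι : Fin m ↪ Fin N,
      (p : ℝ) * (∑ x : Fin N → ZMod p, if ∑ j, u j * x (ι j) = s then (1 : ℝ) else 0) =
        (p : ℝ) ^ N := by
    intro ι
    have h1 := (hC p N (cc u ι) (cc u ι) s s (cc_ne u hm hu ι)).1
    rw [Finset.sum_boole]
    have h2 : (univ.filter fun x : Fin N → ZMod p => ∑ i, cc u ι i * x i = s) =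
        univ.filter fun x : Fin N → ZMod p => ∑ j, u j * x (ι j) = s :=
      Finset.filter_congr fun x _ => by rw [cc_sum]
    rw [h2] at h1
    exact_mod_cast h1
  have hsumX : (p : ℝ) * ∑ x, X x = T * (p : ℝ) ^ N := by
    rw [Finset.sum_comm, Finset.mul_sum, Finset.sum_congr rfl fun ι _ => hone ι,
      Finset.sum_const, Finset.card_univ, hcardE, nsmul_eq_mul]
  have hpair : ∀ ι ι' : Fin m ↪ Fin N, (p : ℝ) ^ 2 * (∑ x : Fin N → ZMod p,
      (if ∑ j, u j * x (ι j) = s then (1 : ℝ) else 0) *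
        (if ∑ j, u j * x (ι' j) = s then (1 : ℝ) else 0)) ≤
      (p : ℝ) ^ N + (if (∀ j, ∃ j', ι j' = ι' j) then (p : ℝ) ^ N * p else 0) := by
    intro ι ι'
    by_cases hd : ∃ l, cc u ι' = fun i => l * cc u ι i
    · rw [if_pos (dep_range u hu ι ι' hd)]
      have h1 : (∑ x : Fin N → ZMod p, (if ∑ j, u j * x (ι j) = s then (1 : ℝ) else 0) *
          (if ∑ j, u j * x (ι' j) = s then (1 : ℝ) else 0)) ≤
          ∑ x : Fin N → ZMod p, if ∑ j, u j * x (ι j) = s then (1 : ℝ) else 0 := by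
        refine Finset.sum_le_sum fun x _ => ?_
        split_ifs <;> norm_num
      have h2 := hone ι
      have h3 : (0 : ℝ) ≤ (p : ℝ) ^ N := by positivity
      calc (p : ℝ) ^ 2 * _ ≤ (p : ℝ) ^ 2 *
            ∑ x : Fin N → ZMod p, (if ∑ j, u j * x (ι j) = s then (1 : ℝ) else 0) :=
            mul_le_mul_of_nonneg_left h1 (by positivity)
        _ = (p : ℝ) * ((p : ℝ) *
            ∑ x : Fin N → ZMod p, (if ∑ j, u j * x (ι j) = s then (1 : ℝ) else 0)) := by ring
        _ = (p : ℝ) ^ N * p := by rw [h2]; ring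
        _ ≤ _ := by linarith
    · have h1 := (hC p N (cc u ι) (cc u ι') s s (cc_ne u hm hu ι)).2 hd
      have h2 : (univ.filter fun x : Fin N → ZMod p =>
          ∑ i, cc u ι i * x i = s ∧ ∑ i, cc u ι' i * x i = s) =
          univ.filter fun x : Fin N → ZMod p =>
            ∑ j, u j * x (ι j) = s ∧ ∑ j, u j * x (ι' j) = s :=
        Finset.filter_congr fun x _ => by rw [cc_sum, cc_sum]
      rw [h2] at h1
      have h3 : (∑ x : Fin N → ZMod p, (if ∑ j, u j * x (ι j) = s then (1 : ℝ) else 0) *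
          (if ∑ j, u j * x (ι' j) = s then (1 : ℝ) else 0)) =
          ((univ.filter fun x : Fin N → ZMod p =>
            ∑ j, u j * x (ι j) = s ∧ ∑ j, u j * x (ι' j) = s).card : ℝ) := by
        rw [← Finset.sum_boole]
        refine Finset.sum_congr rfl fun x _ => ?_
        by_cases ha : ∑ j, u j * x (ι j) = s <;> by_cases hb : ∑ j, u j * x (ι' j) = s <;>
          simp [ha, hb]
      rw [h3]
      have h4 : (p : ℝ) ^ 2 * ((univ.filter fun x : Fin N → ZMod p =>
            ∑ j, u j * x (ι j) = s ∧ ∑ j, u j * x (ι' j) = s).card : ℝ) = (p : ℝ) ^ N := by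
        exact_mod_cast h1
      rw [h4]
      have : (0 : ℝ) ≤ if (∀ j, ∃ j', ι j' = ι' j) then (p : ℝ) ^ N * p else 0 := by
        split_ifs <;> positivity
      linarith
  have hsq : (p : ℝ) ^ 2 * ∑ x, X x ^ 2 ≤
      (T : ℝ) ^ 2 * (p : ℝ) ^ N + T * (m.factorial * ((p : ℝ) ^ N * p)) := by
    have h1 : ∑ x, X x ^ 2 = ∑ ι : Fin m ↪ Fin N, ∑ ι' : Fin m ↪ Fin N, ∑ x : Fin N → ZMod p,
        (if ∑ j, u j * x (ι j) = s then (1 : ℝ) else 0) *
          (if ∑ j, u j * x (ι' j) = s then (1 : ℝ) else 0) := by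
      calc ∑ x, X x ^ 2 = ∑ x : Fin N → ZMod p, ∑ ι : Fin m ↪ Fin N, ∑ ι' : Fin m ↪ Fin N,
          (if ∑ j, u j * x (ι j) = s then (1 : ℝ) else 0) *
          (if ∑ j, u j * x (ι' j) = s then (1 : ℝ) else 0) := by
            refine Finset.sum_congr rfl fun x _ => ?_
            rw [sq, Finset.sum_mul_sum]
        _ = _ := by
            rw [Finset.sum_comm]
            refine Finset.sum_congr rfl fun ι _ => ?_
            rw [Finset.sum_comm]
    rw [h1, Finset.mul_sum]
    have h2 : ∀ ι : Fin m ↪ Fin N, (p : ℝ) ^ 2 * (∑ ι' : Fin m ↪ Fin N, ∑ x : Fin N → ZMod p,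
        (if ∑ j, u j * x (ι j) = s then (1 : ℝ) else 0) *
          (if ∑ j, u j * x (ι' j) = s then (1 : ℝ) else 0)) ≤
        T * (p : ℝ) ^ N + m.factorial * ((p : ℝ) ^ N * p) := by
      intro ι
      rw [Finset.mul_sum]
      refine (Finset.sum_le_sum fun ι' _ => hpair ι ι').trans ?_
      rw [Finset.sum_add_distrib, Finset.sum_const, Finset.card_univ, hcardE, nsmul_eq_mul,
        ← Finset.sum_filter, Finset.sum_const, nsmul_eq_mul]
      have h3 := card_dep ι
      have h4 : (((univ.filter fun ι' : Fin m ↪ Fin N => ∀ j, ∃ j', ι j' = ι' j).card : ℕ) : ℝ) ≤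
          m.factorial := by exact_mod_cast h3
      have h5 : (0 : ℝ) ≤ (p : ℝ) ^ N * p := by positivity
      have h6 := mul_le_mul_of_nonneg_right h4 h5
      linarith
    refine (Finset.sum_le_sum fun ι _ => h2 ι).trans ?_
    rw [Finset.sum_const, Finset.card_univ, hcardE, nsmul_eq_mul]
    apply le_of_eq
    ring
  -- the variance
  set Z := univ.filter fun x : Fin N → ZMod p => ¬ ∃ ι : Fin m ↪ Fin N, ∑ j, u j * x (ι j) = s
    with hZ
  have hX0 : ∀ x ∈ Z, X x = 0 := by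
    intro x hx
    rw [hZ, Finset.mem_filter] at hx
    refine Finset.sum_eq_zero fun ι _ => if_neg fun h => hx.2 ⟨ι, h⟩
  have hvar : (Z.card : ℝ) * (T : ℝ) ^ 2 ≤ T * (m.factorial * ((p : ℝ) ^ N * p)) := by
    have h1 : ∑ x, (p * X x - T) ^ 2 = (p : ℝ) ^ 2 * ∑ x, X x ^ 2 - 2 * T * ((p : ℝ) * ∑ x, X x) +
        (p : ℝ) ^ N * (T : ℝ) ^ 2 := by
      have h2 : ∀ x, (p * X x - T) ^ 2 = (p : ℝ) ^ 2 * X x ^ 2 - 2 * T * ((p : ℝ) * X x) +
          (T : ℝ) ^ 2 := fun x => by ring
      rw [Finset.sum_congr rfl fun x _ => h2 x, Finset.sum_add_distrib, Finset.sum_sub_distrib,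
        Finset.sum_const, ← Finset.mul_sum, ← Finset.mul_sum, ← Finset.mul_sum, Finset.card_univ,
        nsmul_eq_mul, Fintype.card_pi]
      simp [ZMod.card]
    have h3 : (Z.card : ℝ) * (T : ℝ) ^ 2 ≤ ∑ x, (p * X x - T) ^ 2 := by
      calc (Z.card : ℝ) * (T : ℝ) ^ 2 = ∑ x ∈ Z, (p * X x - T) ^ 2 := by
            rw [Finset.sum_congr rfl fun x hx => by rw [hX0 x hx], Finset.sum_const, nsmul_eq_mul]
            ring
        _ ≤ _ := Finset.sum_le_sum_of_subset_of_nonneg (Finset.subset_univ _)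
            fun x _ _ => sq_nonneg _
    rw [h1, hsumX] at h3
    nlinarith [hsq, h3]
  have hTpos : (0 : ℝ) < T := by
    have : 0 < T := lt_of_lt_of_le (by have := hp.out.pos; have := m.factorial_pos; positivity) hT
    exact_mod_cast this
  have h1 : (Z.card : ℝ) * T ≤ m.factorial * ((p : ℝ) ^ N * p) := by
    have : (T : ℝ) * ((Z.card : ℝ) * T) ≤ T * (m.factorial * ((p : ℝ) ^ N * p)) := by
      nlinarith [hvar]
    exact le_of_mul_le_mul_left this hTpos
  have h2 : (8 : ℝ) * (m.factorial * p) ≤ T := by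
    have : 8 * (m.factorial * p) ≤ T := by rw [← mul_assoc]; exact hT
    exact_mod_cast this
  have h3 : (T : ℝ) * (8 * Z.card) ≤ T * (p : ℝ) ^ N := by
    have h4 : (0 : ℝ) ≤ (p : ℝ) ^ N := by positivity
    have h5 := mul_le_mul_of_nonneg_right h2 h4
    nlinarith [h1, h5]
  have h4 := le_of_mul_le_mul_left h3 hTpos
  exact_mod_cast h4

end Pool.Agent.X308.LF
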